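import Pool.Agent.Lib.MP_98022b_bg.RelB

/-!
# MP_98022b_gt: uniformly proper actions on nonpositively curved spaces of bounded geometry

`FJHullT S` is the smallest class of groups which contains a given class `S` and the infinite cyclic
group and is closed under the operations under which the class of groups satisfying the
Farrell-Jones conjecture (in K-theory up to degree one, in L-theory in all degrees, with
coefficients and finite wreath products) is closed, including the transfer reducible groups of
Bartels and Lück.

Let `G` act by isometries on a complete metric space `X` which has a `G`-invariant consistent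
reversible conical geodesic bicombing, for instance on a complete CAT(0) space, and let `f : G → Q`
be a homomorphism to a group in the class, for instance to the trivial group. If `X` is doubling at
small scales and the action of the kernel of `f` is uniformly proper, then `G` is in the class. The
action need not be cocompact. For instance the fundamental groups of all complete Riemannian
manifolds with sectional curvature `-b ^ 2 ≤ K ≤ 0` and positive injectivity radius are in
`FJHullT S` for every `S`.
-/

set_option autoImplicit false

namespace Pool.Agent.Results.MP_98022b_gt.BoundedGeometry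

open Pool.Agent.FJ Pool.Agent.GLN

/-- Let the group `G` act by isometries on a nonempty complete metric space `X` with a `G`-invariant
consistent reversible conical geodesic bicombing `geo`. Suppose that each closed ball of radius
`2 * r`, `0 < r ≤ 1`, is covered by `M` closed balls of radius `r`. Let `f : G → Q` be a
homomorphism to a group `Q` in `FJHullT S`, let `ε > 0` and `m` be such that for each `x` at most
`m` elements `g` of the kernel of `f` satisfy `dist x (g • x) < ε`. Then `G` is in `FJHullT S`. -/
theorem result (S : ∀ (G : Type) [Group G], Prop) {G X Q : Type} [Group G] [Group Q]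
    [MetricSpace X] [CompleteSpace X] [Nonempty X] [MulAction G X]
    (isom : ∀ (g : G) (x y : X), dist (g • x) (g • y) = dist x y) (geo : X → X → ℝ → X)
    (hgeo : Bicomb X geo)
    (hinv : ∀ (g : G) (x y : X) (t : ℝ), 0 ≤ t → t ≤ 1 →
      g • geo x y t = geo (g • x) (g • y) t) (M : ℕ)
    (hdoub : ∀ (x : X) (r : ℝ), 0 < r → r ≤ 1 → ∃ F : Finset X, F.card ≤ M ∧
      Metric.closedBall x (2 * r) ⊆ ⋃ y ∈ F, Metric.closedBall y r)
    (f : G →* Q) (hQ : FJHullT S Q) (ε : ℝ) (hε : 0 < ε) (m : ℕ)
    (hprop : ∀ x : X, {g : G | g ∈ f.ker ∧ dist x (g • x) < ε}.encard ≤ m) : FJHullT S G := by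
  have hD : BG.Doubling X M := by
    intro x r hr hr1
    obtain ⟨F, hF, hF'⟩ := hdoub x r hr hr1
    refine ⟨F, hF, fun z hz => ?_⟩
    obtain ⟨y, hy, h⟩ := Set.mem_iUnion₂.1 (hF' (Metric.mem_closedBall.2 hz))
    exact ⟨y, hy, h⟩
  refine BG.mem_of_uproper_rel (isFJClassT_fjHullT S) hgeo isom hinv hD f hQ hε (m := m)
    fun x => ?_
  have h1 : {g : f.ker | dist x (g • x) < ε} =
      Subtype.val ⁻¹' {g : G | g ∈ f.ker ∧ dist x (g • x) < ε} := by
    ext g
    exact ⟨fun h => ⟨g.2, h⟩, fun h => h.2⟩
  have h2 : (Subtype.val '' {g : f.ker | dist x (g • x) < ε} : Set G) ⊆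
      {g : G | g ∈ f.ker ∧ dist x (g • x) < ε} := by
    rw [h1]
    exact Set.image_preimage_subset _ _
  have h3 : {g : f.ker | dist x (g • x) < ε}.encard ≤ m := by
    rw [← Subtype.val_injective.encard_image]
    exact (Set.encard_le_encard h2).trans (hprop x)
  have h4 : {g : f.ker | dist x (g • x) < ε}.Finite :=
    Set.finite_of_encard_le_coe h3
  refine ⟨h4, ?_⟩
  rw [← Nat.cast_le (α := ℕ∞), h4.cast_ncard_eq]
  exact h3

end Pool.Agent.Results.MP_98022b_gt.BoundedGeometry
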