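import Pool.Agent.Lib.MP_98022b_h30.Contracting

/-!
# MP_98022b_gt: groups defined by contracting wreath recursions

Every class of groups closed under subgroups, overgroups of finite index, direct products of two
groups and directed colimits is closed under the passage from a group `Γ` with a contracting wreath
recursion, with torsion-free kernel of the action on the tree, to the group of all tree
automorphisms with deep sections in the image of `Γ`. This applies to iterated monodromy groups of
post-critically finite rational functions.
-/

namespace Pool.Agent.Parked98022b.ContractingRecursions

open Pool.Agent.MP98022b

theorem result (P : ∀ (G : Type) [Group G], Prop) (hP : IsColimitClass P)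
    (Γ Y : Type) [Group Γ] [Finite Y] (ψ : Γ →* Wr Γ Y) (hΓ : P Γ)
    (N : Set Γ) (hN : Contracting ψ N)
    (htf : ∀ g : Γ, act ψ g = 1 → IsOfFinOrder g → g = 1) :
    P (evIn (act ψ).range) :=
  evIn_mem hP (range_act_mem hP ψ hΓ (eventually_one_of_contracting hN htf))

end Pool.Agent.Parked98022b.ContractingRecursions
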