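import Pool.Agent.Lib.MP_98022b_cc.MedRel

/-!
# MP_98022b_gt: groups acting on finite dimensional CAT(0) cube complexes

`FJHullT S` is the smallest class of groups which contains a given class `S` and the infinite cyclic
group and is closed under the operations under which the class of groups satisfying the
Farrell-Jones conjecture (in K-theory up to degree one, in L-theory in all degrees, with
coefficients and finite wreath products) is closed, including the transfer reducible groups of
Bartels and Lück.

Median graphs are the 1-skeleta of CAT(0) cube complexes. Let `G` act on a finite dimensional one,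
and let `f : G → Q` be a homomorphism to a group in the class, for instance to the trivial group.
The group `G` is in the class if the intersections of the stabilizers of the vertices with the
preimages of the cyclic subgroups of `Q` are in the class, the chains of the intersections of the
kernel of `f` with the pointwise stabilizers of far finite sets of cubes have bounded length, and
for each such intersection `J` and each `t` normalizing `J` the group generated by `J` and `t` is in
the class. The complex may be locally infinite, and the action need be neither proper nor
cocompact. In particular all groups which act properly, with finite stabilizers of bounded order, on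
a finite dimensional CAT(0) cube complex are in `FJHullT S` for every `S`; for torsion-free groups
this is every proper action.
-/

set_option autoImplicit false

open scoped Pointwise

namespace Pool.Agent.Results.MP_98022b_gt.CubeComplexes

open Pool.Agent.FJ Pool.Agent.GLN Pool.Agent.CCC

/-- Let the group `G` act by automorphisms on the median graph `X` without isometric cubes of
dimension larger than `d`, let `f : G → Q` be a homomorphism to a group `Q` in `FJHullT S`, and let
`k`, `l` be natural numbers. For a set `T` of cubes (vertex sets of isometric cubes)
`fixingSubgroup G T` is the group of the elements of `G` which map each cube in `T` onto itself, and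
`J T` is its intersection with the kernel of `f`; `T` is far if it contains two cubes such that all
their vertices have distance at least `k`. Suppose that the intersections of the stabilizers of the
vertices with the preimages of the cyclic subgroups of `Q` are in `FJHullT S`, that in each
increasing sequence `T 0 ⊆ T 1 ⊆ ⋯` of finite sets of cubes with `T 0` far two of the groups
`J (T i)`, `i < l`, and `J (T (i + 1))` are equal, and that for each far finite set `T` of cubes and
each `t` in `G` which normalizes `J T` the group generated by `J T` and `t` is in `FJHullT S`. Then
`G` is in `FJHullT S`. -/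
theorem result (S : ∀ (G : Type) [Group G], Prop) {G V Q : Type} [Group G] [Group Q]
    [MulAction G V] {X : SimpleGraph V} (hX : IsMedianGraph X)
    (hact : ∀ (g : G) x y, X.Adj (g • x) (g • y) ↔ X.Adj x y)
    {d : ℕ} (hd : ∀ n (e : (Fin n → Bool) → V), IsomCube X n e → n ≤ d)
    (f : G →* Q) (hQ : FJHullT S Q) (k l : ℕ)
    (hv : ∀ (x : V) (q : Q),
      FJHullT S (MulAction.stabilizer G x ⊓ (Subgroup.zpowers q).comap f : Subgroup G))
    (hchain : ∀ T : ℕ → Set (Set V), (∀ i, (T i).Finite) → (∀ i, ∀ C ∈ T i, IsCubeSet X C) →
      (∀ i, T i ⊆ T (i + 1)) → (∃ C ∈ T 0, ∃ C' ∈ T 0, ∀ x ∈ C, ∀ y ∈ C', k ≤ X.dist x y) →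
      ∃ i < l, fixingSubgroup G (T i) ⊓ f.ker = fixingSubgroup G (T (i + 1)) ⊓ f.ker)
    (hnorm : ∀ T : Set (Set V), T.Finite → (∀ C ∈ T, IsCubeSet X C) →
      (∃ C ∈ T, ∃ C' ∈ T, ∀ x ∈ C, ∀ y ∈ C', k ≤ X.dist x y) → ∀ t : G,
      (∀ j, j ∈ fixingSubgroup G T ⊓ f.ker ↔ t * j * t⁻¹ ∈ fixingSubgroup G T ⊓ f.ker) →
      FJHullT S ((fixingSubgroup G T ⊓ f.ker) ⊔ Subgroup.zpowers t : Subgroup G)) :
    FJHullT S G :=
  mem_of_median_rel (isFJClassT_fjHullT S) hX hact hd f hQ k l hv hchain hnorm

end Pool.Agent.Results.MP_98022b_gt.CubeComplexes
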