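import Pool.Agent.Lib.UPH.AllMain

/-!
# MP_98022b_gt: products of a semilattice with a shift and uniformly fine hyperbolic graphs

`FJHullT S` is the smallest class of groups which contains a given class `S` and the infinite cyclic
group and is closed under the operations under which the class of groups satisfying the
Farrell-Jones conjecture (in K-theory up to degree one, in L-theory in all degrees, with
coefficients and finite wreath products) is closed, including the transfer reducible groups of
Bartels and Lück.

Let `L` be a join semilattice with an automorphism `φ` such that `x < φ x` for all `x`, the elements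
`φ ^ n x` are cofinal, and the chains from `x` to `φ x` have at most `d` steps. Let `Γ i` be
finitely many (possibly no) connected graphs which are hyperbolic and uniformly fine: for each `n`
the number of the neighbours of a vertex `p` which are joined to a given neighbour of `p` by a walk
of length at most `n` avoiding `p` is bounded. Let `G` act on `L` by automorphisms which commute
with `φ`, and on the graphs `Γ i`, and let `f : G → Q` be a homomorphism to a group in the class, for
instance to the trivial group. The group `G` is in the class if the stabilizers of the elements of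
the product of `L` and the graphs (over the cyclic subgroups of `Q`) are in the class, the
stabilizers of the edges have boundedly many elements in the kernel of `f`, and the pointwise
stabilizers of the finite sets satisfy a condition on chains and a condition on normalizers. The
intervals of `L` and the balls of the graphs may be infinite, there may be infinitely many orbits,
and `G` need not be finitely generated. If the stabilizers of the elements are finite of bounded
order, for instance trivial, then all conditions hold.

* Without graphs: each quasi-Garside group of finite height, each group which acts on a quasi-Garside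
  groupoid in this sense, and all their subgroups are in `FJHullT S` for every `S`.
* For `L = ℤ` with the trivial action, the conditions on chains and normalizers follow from the
  condition on the stabilizers: `G` acts on a finite product of uniformly fine hyperbolic graphs, for
  instance graphs of bounded degree, trees, or coned off Cayley graphs of relatively hyperbolic
  groups.
-/

set_option autoImplicit false

open scoped Pointwise

namespace Pool.Agent.Results.MP_98022b_gt.GarsideLattices

open Pool.Agent.FJ Pool.Agent.GLN Subgroup.Commensurable

/-- The graph distance satisfies the four point condition. -/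
def Hyperbolic {V : Type} (Γ : SimpleGraph V) : Prop :=
  ∃ δ : ℕ, ∀ x y z w : V, Γ.dist x y + Γ.dist z w ≤
    max (Γ.dist x z + Γ.dist y w) (Γ.dist x w + Γ.dist y z) + δ

/-- For each `n` there is an `M` such that for all vertices `p` and all neighbours `a` of `p` at most
`M` neighbours `b` of `p` are joined to `a` by a walk of length at most `n` which avoids `p`. -/
def UniformlyFine {V : Type} (Γ : SimpleGraph V) : Prop :=
  ∀ n : ℕ, ∃ M : ℕ, ∀ p a : V, Γ.Adj p a →
    {b | Γ.Adj p b ∧ ∃ w : Γ.Walk a b, w.length ≤ n ∧ p ∉ w.support}.encard ≤ M

/-- Let `L` be a nonempty join semilattice, let `φ` be an automorphism of `L` such that `x < φ x`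
for all `x`, for all `x`, `y` some `n` has `y ≤ φ ^ n x`, and each strictly increasing chain
`c 0 < ⋯ < c m` with `c m ≤ φ (c 0)` has `m ≤ d`. Let `Γ i`, `i` in a finite set `ι`, be connected,
hyperbolic, uniformly fine graphs. Let the group `G` act on `L` by order preserving maps which
commute with `φ`, and on the graphs `Γ i` by automorphisms, let `f : G → Q` be a homomorphism to a
group `Q` in `FJHullT S`, and let `k`, `l`, `N` be natural numbers. For a tuple `v` of vertices and
a subset `A` of `L` let `J A v` be the group of the elements of the kernel of `f` which fix `v` and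
all elements of `A`. Let us say that `A` is far if it has elements `x`, `y` such that
`y ≤ φ ^ k x` fails; if `ι` is not empty, each nonempty `A` is called far. Suppose that

* the intersections of the stabilizers of the pairs of an element of `L` and a tuple of vertices with
  the preimages of the cyclic subgroups of `Q` are in `FJHullT S`,
* at most `N` elements of the kernel of `f` fix a given element of `L`, a given tuple `v` of
  vertices and a given neighbour of one `v i`,
* for each tuple `v` of vertices and each increasing sequence `A 0 ⊆ A 1 ⊆ ⋯` of finite subsets of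
  `L` with `A 0` far there is an `i < l` such that `J (A i) v` and `J (A (i + 1)) v` are equal, or
  they are commensurable and the intersections of the commensurator of `J (A i) v` with the preimages
  of the cyclic subgroups of `Q` are in `FJHullT S`,
* for each tuple `v` of vertices, each far finite subset `A` of `L` and each `t` in `G` which fixes
  `v` and normalizes `J A v` the group generated by `J A v` and `t` is in `FJHullT S`.

Then `G` is in `FJHullT S`. -/
theorem result (S : ∀ (G : Type) [Group G], Prop) {G L ι Q : Type} [Group G] [Group Q]
    [SemilatticeSup L] [Nonempty L] (φ : L ≃o L) (hlt : ∀ x, x < φ x)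
    (hcof : ∀ x y, ∃ n : ℕ, y ≤ (φ ^ n) x) (d : ℕ)
    (hd : ∀ (m : ℕ) (c : ℕ → L), (∀ i < m, c i < c (i + 1)) → c m ≤ φ (c 0) → m ≤ d)
    [Finite ι] {V : ι → Type} (Γ : ∀ i, SimpleGraph (V i)) (hΓ : ∀ i, (Γ i).Connected)
    (hhyp : ∀ i, Hyperbolic (Γ i)) (hfine : ∀ i, UniformlyFine (Γ i))
    [MulAction G L] (hmono : ∀ (g : G) (x y : L), x ≤ y → g • x ≤ g • y)
    (hφ : ∀ (g : G) (x : L), g • φ x = φ (g • x))
    [∀ i, MulAction G (V i)]
    (hG : ∀ (i : ι) (g : G) (v w : V i), (Γ i).Adj v w → (Γ i).Adj (g • v) (g • w))
    (f : G →* Q) (hQ : FJHullT S Q) (k l N : ℕ)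
    (hv : ∀ (x : L) (v : ∀ i, V i) (q : Q),
      FJHullT S (MulAction.stabilizer G x ⊓ MulAction.stabilizer G v ⊓
        (Subgroup.zpowers q).comap f : Subgroup G))
    (hN : ∀ (x : L) (v : ∀ i, V i) (i : ι) (w : V i), (Γ i).Adj (v i) w →
      {g | g ∈ f.ker ∧ g • x = x ∧ g • v = v ∧ g • w = w}.encard ≤ N)
    (hchain : ∀ (v : ∀ i, V i) (A : ℕ → Set L), (∀ i, (A i).Finite) → (∀ i, A i ⊆ A (i + 1)) →
      (∃ x ∈ A 0, ∃ y ∈ A 0, Nonempty ι ∨ ¬ y ≤ (φ ^ k) x) →
      ∃ i < l, fixingSubgroup G (A i) ⊓ MulAction.stabilizer G v ⊓ f.ker =
          fixingSubgroup G (A (i + 1)) ⊓ MulAction.stabilizer G v ⊓ f.ker ∨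
        Subgroup.Commensurable (fixingSubgroup G (A i) ⊓ MulAction.stabilizer G v ⊓ f.ker)
          (fixingSubgroup G (A (i + 1)) ⊓ MulAction.stabilizer G v ⊓ f.ker) ∧
        ∀ q : Q,
          FJHullT S (commensurator (fixingSubgroup G (A i) ⊓ MulAction.stabilizer G v ⊓ f.ker) ⊓
            (Subgroup.zpowers q).comap f : Subgroup G))
    (hnorm : ∀ (v : ∀ i, V i) (A : Set L), A.Finite →
      (∃ x ∈ A, ∃ y ∈ A, Nonempty ι ∨ ¬ y ≤ (φ ^ k) x) → ∀ t : G, t • v = v →
      (∀ j, j ∈ fixingSubgroup G A ⊓ MulAction.stabilizer G v ⊓ f.ker ↔
        t * j * t⁻¹ ∈ fixingSubgroup G A ⊓ MulAction.stabilizer G v ⊓ f.ker) →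
      FJHullT S ((fixingSubgroup G A ⊓ MulAction.stabilizer G v ⊓ f.ker) ⊔
        Subgroup.zpowers t : Subgroup G)) :
    FJHullT S G := by
  choose δ hδ using hhyp
  refine UPH.main_all (isFJClassT_fjHullT S) φ hlt hcof d hd Γ hΓ δ hδ hfine hmono hφ hG f hQ k l N
    hv (fun x v i w hvw => ?_) hchain hnorm
  refine (Set.encard_le_encard ?_).trans (hN x v i w hvw)
  rintro g ⟨h1, h2, h3, h4⟩
  exact ⟨h1, h2, funext h3, h4⟩

end Pool.Agent.Results.MP_98022b_gt.GarsideLattices
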