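import Pool.Agent.Lib.MP_98022b_gln.MainT
import Pool.Agent.Lib.MP_98022b_gln.GeoTR
import Pool.Agent.Lib.MP_98022b_hn.Ext

/-!
# MP_98022b_gt: linear groups over commutative rings

`FJHullT S` is the smallest class of groups which contains a given class `S` and the infinite cyclic
group and is closed under the operations under which the class of groups satisfying the
Farrell-Jones conjecture (in K-theory up to degree one, in L-theory in all degrees, with
coefficients and finite wreath products) is closed, including the transfer reducible groups of
Bartels and Lück. For the class `S` of the solvable groups and the groups `GL_n(ℚ)` it contains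
`GL_n(R)` and all its subgroups, for every commutative ring `R`, and more generally all groups which
have a homomorphism to the automorphism group of a finitely generated module over a commutative
ring whose kernel is hyper-(locally nilpotent or locally finite), for example solvable.

The new homotopy actions are the ones on products of spaces of norms of volume `0`
(`Pool.Agent.GLN.geoTR`). The kernel is treated in `Pool.Agent.HN.mem_hyper`, with the actions of
HNN extensions of torsion-free nilpotent groups along isolated subgroups on their trees.
-/

set_option autoImplicit false

namespace Pool.Agent.Results.MP_98022b_gt.LinearGroups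

open Pool.Agent.FJ Pool.Agent.GLN Pool.Agent.HN

/-- The class of the solvable groups and the groups `GL_n(ℚ)`. -/
inductive SolvOrGLQ : (G : Type) → [Group G] → Prop
  /-- solvable groups -/
  | solvable {G : Type} [Group G] (h : Group.IsSolvable G) : SolvOrGLQ G
  /-- the groups `GL_n(ℚ)` -/
  | glQ (n : ℕ) : SolvOrGLQ (GL (Fin n) ℚ)

/-- Let `M` be a finitely generated module over a commutative ring `R`. Every group `G` which has a
homomorphism to the group of the automorphisms of `M` with a kernel which is
hyper-(locally nilpotent or locally finite) is in `FJHullT SolvOrGLQ`. -/
theorem result (R M : Type) [CommRing R] [AddCommGroup M] [Module R M] [Module.Finite R M]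
    (G : Type) [Group G] (f : G →* (M ≃ₗ[R] M)) (hf : Hyper f.ker) : FJHullT SolvOrGLQ G :=
  mem_hyper (isFJClassT_fjHullT SolvOrGLQ)
    (fun _ _ h => FJHullT.base (SolvOrGLQ.solvable h)) f
    (mem_of_hom_T geoTR (isFJClassT_fjHullT SolvOrGLQ)
      (fun _ _ h => FJHullT.base (SolvOrGLQ.solvable h)) (fun n => FJHullT.base (SolvOrGLQ.glQ n))
      (MonoidHom.id (M ≃ₗ[R] M)) (by
        rw [MonoidHom.ker_id]
        infer_instance)) hf

/-- The case of a solvable kernel. -/
theorem result_of_solvable (R M : Type) [CommRing R] [AddCommGroup M] [Module R M]
    [Module.Finite R M] (G : Type) [Group G] (f : G →* (M ≃ₗ[R] M))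
    (hf : Group.IsSolvable f.ker) : FJHullT SolvOrGLQ G :=
  result R M G f (hyper_of_solvable f.ker hf)

end Pool.Agent.Results.MP_98022b_gt.LinearGroups
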