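import Pool.Agent.Lib.MP_98022b_h12.Ext
import Pool.Agent.Lib.MP_98022b_h12.From

/-!
# MP_98022b_gt: extensions on which conjugation is locally inner

For every class `B` of groups the smallest class `FJFrom B` of groups which contains `B` and the
infinite cyclic group and has the inheritance properties of the Farrell-Jones conjecture is closed
under extensions `1 → K → G → Q` such that conjugation by each element of `G` with image of
infinite order in `Q` is, on every finite subset of `K`, induced by an inner automorphism of some
group of the class.
-/

namespace Pool.Agent.Parked98022b.LocallyInner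

open Pool.Agent.FJ

/-- Let `B` be any class of groups. If `f : G → Q` is a homomorphism with `Q` and `ker f` in the
class generated by `B`, and conjugation by each `g` with `f g` of infinite order is on finite
subsets of `ker f` induced by an inner automorphism of a group of this class, then `G` is in this
class. -/
theorem result (B : ∀ (G : Type) [Group G], Prop)
    {G Q : Type} [Group G] [Group Q] (f : G →* Q) (hQ : FJFrom B Q) (hK : FJFrom B f.ker)
    (h : ∀ g : G, ¬ IsOfFinOrder (f g) → ∀ S : Finset G, (∀ s ∈ S, f s = 1) →
      ∃ (K₀ : Subgroup G) (M : Type) (_ : Group M) (ρ : K₀ →* M) (m : M),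
        FJFrom B M ∧ Function.Injective ρ ∧ ∀ s ∈ S, ∃ (hs : s ∈ K₀) (hs' : g * s * g⁻¹ ∈ K₀),
          ρ ⟨g * s * g⁻¹, hs'⟩ = m * ρ ⟨s, hs⟩ * m⁻¹) :
    FJFrom B G :=
  H12.ext_mem (isFJClass_fjFrom B) f hQ hK h

end Pool.Agent.Parked98022b.LocallyInner
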