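import Mathlib

/-!
# MP_98022b_gt: reduction of the L-theoretic assembly question to one countable group

For every natural transformation `η : F ⟶ H` between functors from groups to abelian groups which
commute with filtered colimits, injectivity (resp. surjectivity) of `η` on one fixed countable
torsion-free group `U` implies injectivity (resp. surjectivity) on every torsion-free group.
-/

open CategoryTheory CategoryTheory.Limits

namespace Pool.Agent.Parked98022b.OneGroup

universe u

/-- No element except `1` has finite order. -/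
def TorsionFree (G : Type*) [Group G] : Prop :=
  ∀ (g : G) (n : ℕ), 0 < n → g ^ n = 1 → g = 1

section closure

variable {G : Type*} [Group G]

/-- Normal subgroups with torsion-free quotient. -/
def Isolated (N : Subgroup G) : Prop :=
  N.Normal ∧ ∀ (g : G) (n : ℕ), 0 < n → g ^ n ∈ N → g ∈ N

/-- The smallest normal subgroup containing `R` whose quotient is torsion-free. -/
def tfClosure (R : Set G) : Subgroup G := sInf {N | Isolated N ∧ R ⊆ N}

lemma mem_tfClosure {R : Set G} {g : G} :
    g ∈ tfClosure R ↔ ∀ N : Subgroup G, Isolated N → R ⊆ N → g ∈ N := by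
  unfold tfClosure
  rw [Subgroup.mem_sInf]
  constructor
  · intro h N hN hR
    exact h N ⟨hN, hR⟩
  · rintro h N ⟨hN, hR⟩
    exact h N hN hR

lemma subset_tfClosure (R : Set G) : R ⊆ tfClosure R := by
  intro g hg
  exact mem_tfClosure.2 fun N _ hR => hR hg

lemma tfClosure_isolated (R : Set G) : Isolated (tfClosure R) := by
  refine ⟨⟨fun g hg x => ?_⟩, fun g n hn hg => ?_⟩
  · rw [mem_tfClosure] at hg ⊢
    intro N hN hR
    exact hN.1.conj_mem g (hg N hN hR) x
  · rw [mem_tfClosure] at hg ⊢
    intro N hN hR
    exact hN.2 g n hn (hg N hN hR)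

instance (R : Set G) : (tfClosure R).Normal := (tfClosure_isolated R).1

lemma tfClosure_le {R : Set G} {N : Subgroup G} (hN : Isolated N) (hR : R ⊆ N) :
    tfClosure R ≤ N := fun _ hg => mem_tfClosure.1 hg N hN hR

lemma torsionFree_quotient {N : Subgroup G} [N.Normal] (hN : Isolated N) :
    TorsionFree (G ⧸ N) := by
  intro g n hn hg
  induction g using QuotientGroup.induction_on with
  | H g =>
    rw [← QuotientGroup.mk_pow, QuotientGroup.eq_one_iff] at hg
    rw [QuotientGroup.eq_one_iff]
    exact hN.2 g n hn hg

lemma isolated_comap {H : Type*} [Group H] (f : G →* H) {N : Subgroup H} (hN : Isolated N) :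
    Isolated (N.comap f) := by
  refine ⟨⟨fun g hg x => ?_⟩, fun g n hn hg => ?_⟩
  · rw [Subgroup.mem_comap] at hg ⊢
    rw [map_mul, map_mul, map_inv]
    exact hN.1.conj_mem _ hg _
  · rw [Subgroup.mem_comap] at hg ⊢
    rw [map_pow] at hg
    exact hN.2 _ n hn hg

lemma isolated_ker {H : Type*} [Group H] (hH : TorsionFree H) (f : G →* H) :
    Isolated f.ker := by
  refine ⟨inferInstance, fun g n hn hg => ?_⟩
  rw [MonoidHom.mem_ker] at hg ⊢
  rw [map_pow] at hg
  exact hH _ n hn hg

lemma tfClosure_le_comap {H : Type*} [Group H] (f : G →* H) {R : Set G} {R' : Set H}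
    (h : ∀ g ∈ R, f g ∈ R') : tfClosure R ≤ (tfClosure R').comap f :=
  tfClosure_le (isolated_comap f (tfClosure_isolated R')) fun g hg =>
    subset_tfClosure R' (h g hg)

end closure

/-! ## The countable torsion-free group `U` -/

/-- Index set: finite presentations. -/
abbrev Idx : Type := Σ n : ℕ, Finset (FreeGroup (Fin n))

/-- The largest torsion-free quotient of a finitely presented group. -/
abbrev Fac (i : Idx) : Type := FreeGroup (Fin i.1) ⧸ tfClosure (i.2 : Set (FreeGroup (Fin i.1)))

/-- The restricted direct product of all `Fac i`. -/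
def U : Subgroup (∀ i : Idx, Fac i) where
  carrier := {f | {i | f i ≠ 1}.Finite}
  mul_mem' := by
    intro a b ha hb
    refine (ha.union hb).subset ?_
    intro i hi
    by_contra hcon
    have h1 : a i = 1 := by
      by_contra h
      exact hcon (Or.inl h)
    have h2 : b i = 1 := by
      by_contra h
      exact hcon (Or.inr h)
    exact hi (by rw [Pi.mul_apply, h1, h2, mul_one])
  one_mem' := by simp
  inv_mem' := by
    intro a ha
    refine ha.subset ?_
    intro i hi
    simpa using hi

instance countable_fac (i : Idx) : Countable (Fac i) :=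
  (QuotientGroup.mk_surjective (s := tfClosure (i.2 : Set (FreeGroup (Fin i.1))))).countable

instance countable_U : Countable U := by
  classical
  have hfin : ∀ f : U, {i | (f : ∀ i, Fac i) i ≠ 1}.Finite := fun f => f.2
  let φ : U → Finset (Σ i : Idx, Fac i) := fun f =>
    (hfin f).toFinset.image fun i => ⟨i, (f : ∀ i, Fac i) i⟩
  have hφ : Function.Injective φ := by
    intro f g hfg
    apply Subtype.ext
    funext i
    by_contra hne
    have key : ∀ (a b : U), φ a = φ b → (a : ∀ i, Fac i) i ≠ 1 →
        (a : ∀ i, Fac i) i = (b : ∀ i, Fac i) i := by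
      intro a b hab ha
      have h1 : (⟨i, (a : ∀ i, Fac i) i⟩ : Σ i : Idx, Fac i) ∈ φ a := by
        refine Finset.mem_image.2 ⟨i, ?_, rfl⟩
        exact (hfin a).mem_toFinset.2 ha
      rw [hab] at h1
      obtain ⟨j, _, hj⟩ := Finset.mem_image.1 h1
      have hji : j = i := congrArg Sigma.fst hj
      subst hji
      exact (eq_of_heq (Sigma.mk.inj hj).2).symm
    by_cases h1 : (f : ∀ i, Fac i) i = 1
    · by_cases h2 : (g : ∀ i, Fac i) i = 1
      · exact hne (h1.trans h2.symm)
      · exact hne (key g f hfg.symm h2).symm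
    · exact hne (key f g hfg h1)
  exact hφ.countable

lemma torsionFree_U : TorsionFree U := by
  intro f n hn hf
  apply Subtype.ext
  funext i
  have : ((f : ∀ i, Fac i) i) ^ n = 1 := by
    have h := congrArg (fun x : U => (x : ∀ i, Fac i) i) hf
    simpa using h
  exact torsionFree_quotient (tfClosure_isolated _) _ n hn this

/-- The retraction of `U` on a factor. -/
def proj (i : Idx) : U →* Fac i := (Pi.evalMonoidHom (fun i => Fac i) i).comp U.subtype

open Classical in
/-- The inclusion of a factor. -/
noncomputable def incl (i : Idx) : Fac i →* U :=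
  (MonoidHom.mulSingle (fun i => Fac i) i).codRestrict U (by
    intro x
    refine (Set.finite_singleton i).subset ?_
    intro j hj
    by_contra hne
    exact hj (Pi.mulSingle_eq_of_ne (by simpa using hne) x))

lemma proj_incl (i : Idx) (x : Fac i) : proj i (incl i x) = x := by
  change (Pi.mulSingle (M := fun i => Fac i) i x) i = x
  exact Pi.mulSingle_eq_same i x

/-! ## Every torsion-free group is a filtered colimit of factors of `U` -/

section diagram

variable (G : Type u) [Group G]

/-- The canonical surjection from the free group on the set `G`. -/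
def ev : FreeGroup G →* G := FreeGroup.lift id

/-- The relations of `G`. -/
abbrev Rel : Type u := ↥(ev G).ker

/-- The directed index set: finite sets of generators and finite sets of relations. -/
def J : Type u := Finset G × Finset (Rel G)

instance : Preorder (J G) := inferInstanceAs (Preorder (Finset G × Finset (Rel G)))

open Classical in
instance : IsDirectedOrder (J G) :=
  ⟨fun a b => ⟨((a.1 ∪ b.1, a.2 ∪ b.2) : Finset G × Finset (Rel G)),
    ⟨Finset.subset_union_left, Finset.subset_union_left⟩,
    ⟨Finset.subset_union_right, Finset.subset_union_right⟩⟩⟩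

instance : Nonempty (J G) := ⟨((∅, ∅) : Finset G × Finset (Rel G))⟩

/-- The relations among the chosen ones which only involve the chosen generators. -/
def relSet (j : J G) : Set (FreeGroup j.1) :=
  {w | ∃ r ∈ j.2, (r : FreeGroup G) = FreeGroup.map Subtype.val w}

/-- Largest torsion-free quotient of the group presented by `j`. -/
abbrev Dg (j : J G) : Type u := FreeGroup j.1 ⧸ tfClosure (relSet G j)

/-- Inclusion of free groups. -/
def inc {S T : Finset G} (h : S ⊆ T) : FreeGroup S →* FreeGroup T :=
  FreeGroup.map fun x => ⟨x.1, h x.2⟩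

omit [Group G] in
lemma map_inc {S T : Finset G} (h : S ⊆ T) (w : FreeGroup S) :
    FreeGroup.map Subtype.val (inc G h w) = FreeGroup.map (Subtype.val : S → G) w := by
  unfold inc
  rw [FreeGroup.map.comp]
  rfl

lemma inc_relSet {i j : J G} (h : i ≤ j) (w : FreeGroup i.1) (hw : w ∈ relSet G i) :
    inc G h.1 w ∈ relSet G j := by
  obtain ⟨r, hr, hrw⟩ := hw
  exact ⟨r, h.2 hr, by rw [map_inc, hrw]⟩

/-- Transition maps. -/
def trans {i j : J G} (h : i ≤ j) : Dg G i →* Dg G j :=
  QuotientGroup.map _ _ (inc G h.1) (tfClosure_le_comap _ fun w hw => inc_relSet G h w hw)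

@[simp] lemma trans_mk {i j : J G} (h : i ≤ j) (w : FreeGroup i.1) :
    trans G h (QuotientGroup.mk w) = QuotientGroup.mk (inc G h.1 w) := rfl

omit [Group G] in
lemma inc_refl (S : Finset G) (w : FreeGroup S) : inc G (le_refl S) w = w :=
  FreeGroup.map.id' w

omit [Group G] in
lemma inc_inc {S T V : Finset G} (h : S ⊆ T) (h' : T ⊆ V) (w : FreeGroup S) :
    inc G h' (inc G h w) = inc G (h.trans h') w := by
  unfold inc
  rw [FreeGroup.map.comp]
  rfl

/-- The diagram. -/
def D : J G ⥤ GrpCat.{u} where
  obj j := GrpCat.of (Dg G j)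
  map f := GrpCat.ofHom (trans G (leOfHom f))
  map_id j := by
    apply GrpCat.hom_ext
    apply MonoidHom.ext
    intro x
    induction x using QuotientGroup.induction_on with
    | H w => exact congrArg QuotientGroup.mk (inc_refl G j.1 w)
  map_comp f g := by
    apply GrpCat.hom_ext
    apply MonoidHom.ext
    intro x
    induction x using QuotientGroup.induction_on with
    | H w => exact congrArg QuotientGroup.mk (inc_inc G (leOfHom f).1 (leOfHom g).1 w).symm

variable {G} (hG : TorsionFree G)
include hG

lemma tf_le_ker (j : J G) :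
    tfClosure (relSet G j) ≤ ((ev G).comp (FreeGroup.map (Subtype.val : j.1 → G))).ker := by
  refine tfClosure_le (isolated_ker hG _) ?_
  rintro w ⟨r, _, hr⟩
  rw [SetLike.mem_coe, MonoidHom.mem_ker, MonoidHom.comp_apply, ← hr]
  exact r.2

/-- The map to `G`. -/
def toG (j : J G) : Dg G j →* G :=
  QuotientGroup.lift _ ((ev G).comp (FreeGroup.map (Subtype.val : j.1 → G))) (tf_le_ker hG j)

lemma toG_mk (j : J G) (w : FreeGroup j.1) :
    toG hG j (QuotientGroup.mk w) = ev G (FreeGroup.map (Subtype.val : j.1 → G) w) := rfl

/-- The cocone. -/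
def cone : Cocone (D G) where
  pt := GrpCat.of G
  ι :=
    { app := fun j => GrpCat.ofHom (toG hG j)
      naturality := by
        intro i j f
        apply GrpCat.hom_ext
        apply MonoidHom.ext
        intro x
        induction x using QuotientGroup.induction_on with
        | H w => exact congrArg (ev G) (map_inc G (leOfHom f).1 w) }

open Classical in
/-- The cocone is a colimit. -/
noncomputable def isColimitCone : IsColimit (cone hG) := by
  haveI : HasColimit (D G) :=
    ⟨⟨⟨GrpCat.FilteredColimits.colimitCocone.{u, u} (D G),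
      GrpCat.FilteredColimits.colimitCoconeIsColimit.{u, u} (D G)⟩⟩⟩
  haveI : ReflectsColimit (D G) (forget GrpCat.{u}) :=
    reflectsColimit_of_reflectsIsomorphisms (D G) (forget GrpCat.{u})
  refine isColimitOfReflects (forget GrpCat.{u}) ?_
  refine Types.FilteredColimit.isColimitOf' _ _ ?_ ?_
  · intro x
    let x' : G := x
    refine ⟨(({x'}, ∅) : Finset G × Finset (Rel G)),
      (QuotientGroup.mk (FreeGroup.of ⟨x', Finset.mem_singleton_self x'⟩) :
      Dg G (({x'}, ∅) : Finset G × Finset (Rel G))), ?_⟩
    change x' = ev G (FreeGroup.map _ (FreeGroup.of _))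
    simp [ev]
  · intro i x y hxy
    have main : ∀ x y : Dg G i, toG hG i x = toG hG i y →
        ∃ (k : J G) (f : i ≤ k), trans G f x = trans G f y := by
      intro x y
      induction x using QuotientGroup.induction_on with
      | H w =>
        induction y using QuotientGroup.induction_on with
        | H w' =>
          intro h
          rw [toG_mk, toG_mk] at h
          let r : FreeGroup G := FreeGroup.map (Subtype.val : i.1 → G) (w⁻¹ * w')
          have hr : r ∈ (ev G).ker := by
            rw [MonoidHom.mem_ker]
            change ev G (FreeGroup.map (Subtype.val : i.1 → G) (w⁻¹ * w')) = 1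
            rw [map_mul, map_mul, map_inv, map_inv, h, inv_mul_cancel]
          let k : J G := ((i.1, insert ⟨r, hr⟩ i.2) : Finset G × Finset (Rel G))
          have hik : i ≤ k := ⟨le_refl _, Finset.subset_insert _ _⟩
          refine ⟨k, hik, ?_⟩
          rw [trans_mk, trans_mk, QuotientGroup.eq]
          apply subset_tfClosure
          refine ⟨⟨r, hr⟩, Finset.mem_insert_self _ _, ?_⟩
          have h1 := map_inc G hik.1 (w⁻¹ * w')
          rw [map_mul (inc G hik.1), map_inv (inc G hik.1)] at h1
          exact h1.symm
    obtain ⟨k, f, hk⟩ := main x y hxy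
    exact ⟨k, homOfLE f, hk⟩

end diagram

/-! ## The groups of the diagram are retracts of `U` -/

lemma exists_equiv_fac {X : Type u} [Finite X] {R : Set (FreeGroup X)} (hR : R.Finite) :
    ∃ i : Idx, Nonempty ((FreeGroup X ⧸ tfClosure R) ≃* Fac i) := by
  classical
  obtain ⟨n, ⟨e⟩⟩ := Finite.exists_equiv_fin X
  let f : FreeGroup X ≃* FreeGroup (Fin n) := FreeGroup.freeGroupCongr e
  let R' : Finset (FreeGroup (Fin n)) := hR.toFinset.image f
  have hmem : ∀ w, w ∈ R' ↔ ∃ r ∈ R, f r = w := by
    intro w
    simp [R']
  refine ⟨⟨n, R'⟩, ⟨QuotientGroup.congr _ _ f ?_⟩⟩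
  apply le_antisymm
  · rw [Subgroup.map_le_iff_le_comap]
    exact tfClosure_le_comap (f : FreeGroup X →* FreeGroup (Fin n))
      fun g hg => (hmem _).2 ⟨g, hg, rfl⟩
  · have h1 : tfClosure (R' : Set (FreeGroup (Fin n))) ≤
        (tfClosure R).comap (f.symm : FreeGroup (Fin n) →* FreeGroup X) := by
      apply tfClosure_le_comap
      intro w hw
      obtain ⟨r, hr, rfl⟩ := (hmem w).1 hw
      simpa using hr
    intro w hw
    refine ⟨f.symm w, h1 hw, ?_⟩
    simp

lemma relSet_finite (G : Type u) [Group G] (j : J G) : (relSet G j).Finite := by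
  have h1 : ((fun r : Rel G => (r : FreeGroup G)) '' (j.2 : Set (Rel G))).Finite :=
    (Finset.finite_toSet j.2).image _
  refine (h1.preimage (f := FreeGroup.map (Subtype.val : j.1 → G))
    (FreeGroup.map_injective Subtype.val_injective).injOn).subset ?_
  rintro w ⟨r, hr, hrw⟩
  exact ⟨r, hr, hrw⟩

lemma exists_retract (G : Type u) [Group G] (j : J G) :
    ∃ (a : (D G).obj j ⟶ GrpCat.of (ULift.{u} U)) (b : GrpCat.of (ULift.{u} U) ⟶ (D G).obj j),
      a ≫ b = 𝟙 _ := by
  obtain ⟨i, ⟨e⟩⟩ := exists_equiv_fac (relSet_finite G j)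
  refine ⟨GrpCat.ofHom ((MulEquiv.ulift.symm : U ≃* ULift.{u} U).toMonoidHom.comp
      ((incl i).comp e.toMonoidHom)),
    GrpCat.ofHom ((e.symm.toMonoidHom.comp (proj i)).comp
      (MulEquiv.ulift : ULift.{u} U ≃* U).toMonoidHom), ?_⟩
  apply GrpCat.hom_ext
  apply MonoidHom.ext
  intro x
  change e.symm (proj i (incl i (e x))) = x
  rw [proj_incl]
  exact e.symm_apply_apply x

/-! ## Natural transformations -/

section nat

variable {F H : GrpCat.{u} ⥤ Ab.{u}} (η : F ⟶ H)

lemma nat_apply {A B : GrpCat.{u}} (f : A ⟶ B) (z : F.obj A) :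
    η.app B (F.map f z) = H.map f (η.app A z) := by
  rw [← ConcreteCategory.comp_apply, ← ConcreteCategory.comp_apply, η.naturality]

lemma inj_of_retract {A B : GrpCat.{u}} (a : A ⟶ B) (b : B ⟶ A) (hab : a ≫ b = 𝟙 _)
    (hB : Function.Injective (η.app B)) : Function.Injective (η.app A) := by
  intro x y hxy
  have h1 : ∀ z : F.obj A, F.map b (F.map a z) = z := by
    intro z
    rw [← ConcreteCategory.comp_apply, ← F.map_comp, hab, F.map_id]
    rfl
  have h2 : ∀ z : F.obj A, η.app B (F.map a z) = H.map a (η.app A z) := by
    intro z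
    rw [← ConcreteCategory.comp_apply, ← ConcreteCategory.comp_apply, η.naturality]
  have h3 : F.map a x = F.map a y := hB (by rw [h2, h2, hxy])
  rw [← h1 x, h3, h1]

lemma surj_of_retract {A B : GrpCat.{u}} (a : A ⟶ B) (b : B ⟶ A) (hab : a ≫ b = 𝟙 _)
    (hB : Function.Surjective (η.app B)) : Function.Surjective (η.app A) := by
  intro y
  obtain ⟨z, hz⟩ := hB (H.map a y)
  refine ⟨F.map b z, ?_⟩
  have h2 : η.app A (F.map b z) = H.map b (η.app B z) := by
    rw [← ConcreteCategory.comp_apply, ← ConcreteCategory.comp_apply, η.naturality]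
  rw [h2, hz, ← ConcreteCategory.comp_apply, ← H.map_comp, hab, H.map_id]
  rfl

variable [PreservesFilteredColimits F] [PreservesFilteredColimits H]

lemma inj_of_colimit {K : Type u} [SmallCategory K] [IsFiltered K] {E : K ⥤ GrpCat.{u}}
    {c : Cocone E} (hc : IsColimit c) (h : ∀ k, Function.Injective (η.app (E.obj k))) :
    Function.Injective (η.app c.pt) := by
  have hF : IsColimit (F.mapCocone c) := isColimitOfPreserves F hc
  have hH : IsColimit (H.mapCocone c) := isColimitOfPreserves H hc
  intro x y hxy
  obtain ⟨i, x', hx'⟩ := Concrete.isColimit_exists_rep _ hF x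
  obtain ⟨j, y', hy'⟩ := Concrete.isColimit_exists_rep _ hF y
  have nat : ∀ (k : K) (z : F.obj (E.obj k)),
      η.app c.pt ((F.mapCocone c).ι.app k z) = (H.mapCocone c).ι.app k (η.app (E.obj k) z) := by
    intro k z
    exact nat_apply η (c.ι.app k) z
  have h1 : (H.mapCocone c).ι.app i (η.app (E.obj i) x') =
      (H.mapCocone c).ι.app j (η.app (E.obj j) y') := by
    rw [← nat, ← nat, hx', hy', hxy]
  obtain ⟨k, f, g, hk⟩ := Concrete.isColimit_exists_of_rep_eq _ hH _ _ h1
  have h2 : (E ⋙ F).map f x' = (E ⋙ F).map g y' := by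
    apply h k
    have n1 : η.app (E.obj k) (F.map (E.map f) x') = H.map (E.map f) (η.app (E.obj i) x') := by
      rw [← ConcreteCategory.comp_apply, ← ConcreteCategory.comp_apply, η.naturality]
    have n2 : η.app (E.obj k) (F.map (E.map g) y') = H.map (E.map g) (η.app (E.obj j) y') := by
      rw [← ConcreteCategory.comp_apply, ← ConcreteCategory.comp_apply, η.naturality]
    exact n1.trans (hk.trans n2.symm)
  rw [← hx', ← hy']
  exact Concrete.isColimit_rep_eq_of_exists _ _ _ ⟨k, f, g, h2⟩

omit [PreservesFilteredColimits F] in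
lemma surj_of_colimit {K : Type u} [SmallCategory K] [IsFiltered K] {E : K ⥤ GrpCat.{u}}
    {c : Cocone E} (hc : IsColimit c) (h : ∀ k, Function.Surjective (η.app (E.obj k))) :
    Function.Surjective (η.app c.pt) := by
  have hH : IsColimit (H.mapCocone c) := isColimitOfPreserves H hc
  intro y
  obtain ⟨k, y', hy'⟩ := Concrete.isColimit_exists_rep _ hH y
  obtain ⟨z, hz⟩ := h k y'
  refine ⟨F.map (c.ι.app k) z, ?_⟩
  rw [← hy', ← hz]
  exact nat_apply η (c.ι.app k) z

end nat

/-- There is one countable torsion-free group `U` such that for every natural transformation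
`η : F ⟶ H` between functors from groups to abelian groups which commute with filtered colimits:
if `η` is injective (resp. surjective) at `U`, then it is injective (resp. surjective) at every
torsion-free group `G`. -/
theorem result :
    ∃ (U : Type) (_ : Group U), Countable U ∧ TorsionFree U ∧
      ∀ (F H : GrpCat.{u} ⥤ Ab.{u}) [PreservesFilteredColimits F] [PreservesFilteredColimits H]
        (η : F ⟶ H),
        (Function.Injective (η.app (GrpCat.of (ULift.{u} U))) →
          ∀ (G : Type u) [Group G], TorsionFree G → Function.Injective (η.app (GrpCat.of G))) ∧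
        (Function.Surjective (η.app (GrpCat.of (ULift.{u} U))) →
          ∀ (G : Type u) [Group G], TorsionFree G → Function.Surjective (η.app (GrpCat.of G))) := by
  refine ⟨U, inferInstance, countable_U, torsionFree_U, ?_⟩
  intro F H _ _ η
  constructor
  · intro hU G _ hG
    refine inj_of_colimit η (isColimitCone hG) fun j => ?_
    obtain ⟨a, b, hab⟩ := exists_retract G j
    exact inj_of_retract η a b hab hU
  · intro hU G _ hG
    refine surj_of_colimit η (isColimitCone hG) fun j => ?_
    obtain ⟨a, b, hab⟩ := exists_retract G j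
    exact surj_of_retract η a b hab hU

end Pool.Agent.Parked98022b.OneGroup
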