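import Pool.Agent.Lib.MP_98022b_pe.Main

/-!
# MP_98022b_gt: trees with virtually polycyclic or almost malnormal edge stabilizers

Let `KLHull B` be the smallest class of groups which contains a given class `B` and the
torsion-free groups of the class generated by the groups `GL_m(ℚ)` under the inheritance properties
of the Farrell-Jones conjecture, and which is closed under subgroups, directed colimits and actions
on trees with sections over the finitely generated subgroups of the edge stabilizers. It contains
every torsion-free group which acts without inversions on a tree with vertex stabilizers in the
class and locally virtually polycyclic edge stabilizers. More generally it suffices that every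
finitely generated subgroup of an edge stabilizer is contained in a subgroup `D` of the class whose
intersections with its conjugates `g D g⁻¹`, `g ∉ D`, are locally virtually polycyclic.
-/

set_option autoImplicit false

namespace Pool.Agent.Results.MP_98022b_gt.PolycyclicEdges

open Pool.Agent.PE

/-- Let `B` be a class of groups and let the torsion-free group `G` act without inversions on a
tree with vertex stabilizers in the class `KLHull B`. Suppose that every finitely generated subgroup
`H` of an edge stabilizer is contained in a subgroup `D` of `G` such that `D` is in `KLHull B` and
all finitely generated subgroups of `D ∩ g D g⁻¹` are virtually polycyclic for all `g ∉ D` (if `H`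
is virtually polycyclic, `D = H` is such a subgroup). Then `G` is in the class `KLHull B`. -/
theorem result (B : ∀ (G : Type) [Group G], Prop) {G V : Type} [Group G] [MulAction G V]
    {T : SimpleGraph V} (ht : TorsionFree G) (hT : IsTreeAction G V T)
    (hV : ∀ v : V, KLHull B (MulAction.stabilizer G v))
    (hE : ∀ p q, T.Adj p q → ∀ H : Subgroup G, H.FG → (∀ h ∈ H, h • p = p ∧ h • q = q) →
      ∃ D : Subgroup G, H ≤ D ∧ KLHull B D ∧ ∀ g ∉ D, ∀ K : Subgroup G, K.FG →
        (∀ k ∈ K, k ∈ D ∧ g⁻¹ * k * g ∈ D) → VPoly K) :
    KLHull B G :=
  main_gen ht hT hV hE

end Pool.Agent.Results.MP_98022b_gt.PolycyclicEdges
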