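import Pool.Agent.Lib.MP_98022b_h30.Glue
import Pool.Agent.Lib.MP_98022b_h71.Gen

/-!
# MP_98022b_gt: groups of automata of polynomial activity

All groups of finite-state automorphisms of polynomial activity of regular rooted trees can be
built from the infinite cyclic group by the operations under which the class of groups satisfying
the Farrell-Jones conjecture (with coefficients and finite wreath products) is closed.
-/

set_option autoImplicit false

namespace Pool.Agent.Results.MP_98022b_gt.PolynomialAutomata

/-- Let `X` be a finite set. Then every group which embeds in the group of finite-state
automorphisms of polynomial activity of the tree of words over `X` is in the smallest class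
`FJGen` of groups which contains the infinite cyclic group and is closed under subgroups,
overgroups of finite index, direct products of two groups, free products of two groups, directed
colimits, and extensions `f : G → Q` with `Q` and the preimages of all cyclic subgroups of `Q` in
the class. -/
theorem result (X : Type) [Finite X] (G : Type) [Group G]
    (f : G →* Pool.Agent.MP98022b.polyAut X) (hf : Function.Injective f) :
    Pool.Agent.FJ.FJGen G :=
  .sub f hf (Pool.Agent.MP98022b.polyAut_mem Pool.Agent.FJ.isFJClass_fjGen X)

end Pool.Agent.Results.MP_98022b_gt.PolynomialAutomata
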