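import Pool.Agent.Lib.MP_98022b_h40.Gen

/-!
# MP_98022b_gt: one-relator groups with a coherent relator

Let `r` be a word in which the letter `x` occurs, written as `r = ∏_{k<L} x^{e_k} w_k` with
`w_k` words without `x`, and not a proper power. If `r` is `x`-coherent over a
poly-(torsion-free abelian) quotient of `⟨X | r⟩`, for example if `x` occurs in `r` only with
positive exponents, then `⟨X | r⟩` is an extension of a free group by a
poly-(torsion-free abelian) group, and it is in the smallest class of groups with the
inheritance properties of the Farrell-Jones conjecture.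
-/

set_option autoImplicit false

namespace Pool.Agent.Parked.MP_98022b_gt.PositiveOneRelator

open Pool.Agent.H40C

/-- Let `x` be an element of `X`, `L > 0` and `r = ∏_{k<L} x^{e_k} w_k` (`e_k = ±1`, the words
`w_k` do not contain `x`) an element of the free group on `X` which is not a proper power. Let `A`
be a poly-(torsion-free abelian) group and `f` a homomorphism from the free group to `A` with
`f(r) = 1`, such that any two `x`-edges of the path `r` which start at the same point
of `A` have the same sign. Then there is a homomorphism from `G = ⟨X | r⟩` to a
poly-(torsion-free abelian) group with free kernel; `G` is torsion-free; and `G` is in `FJSol`,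
the smallest class of groups which contains the solvable groups and all groups with a
homomorphism to the infinite cyclic group with free kernel, and is closed under subgroups and
under extensions `G → Q` with `Q` and the preimages of all cyclic subgroups of `Q` in the class. -/
theorem result (X : Type) (x : X) (L : ℕ) (hL : 0 < L) (e : ℕ → Bool) (w : ℕ → FreeGroup X)
    (hw : ∀ k < L, w k ∈ without x) (A : Type) [Group A] (hA : PTFA A)
    (f : FreeGroup X →* A) (hf : f (pre x e w L) = 1)
    (coh : ∀ i < L, ∀ j < L, f (pos x e w i) = f (pos x e w j) → e i = e j)
    (hpow : ∀ (v : FreeGroup X) (m : ℕ), 2 ≤ m → pre x e w L ≠ v ^ m) :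
    (∃ (Q : Type) (_ : Group Q) (φ : PresentedGroup {pre x e w L} →* Q),
      PTFA Q ∧ IsFreeGroup φ.ker) ∧
    TorsionFree (PresentedGroup {pre x e w L}) ∧
    FJSol (PresentedGroup {pre x e w L}) := by
  obtain ⟨Q, hQ, φ, h, hK⟩ := exists_free_ker x L hL e w hw A hA f hf coh hpow
  exact ⟨⟨Q, hQ, φ, h, hK⟩, torsionFree_of_ker φ h.torsionFree hK,
    isFJSolvableClass_fjSol.of_free_ker φ (FJSol.solvable h.isSolvable) h.torsionFree hK⟩

end Pool.Agent.Parked.MP_98022b_gt.PositiveOneRelator
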