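import Pool.Agent.Lib.MP_98022b_om.Seg

/-!
# MP_98022b_gt: actions on trees with good stabilizers of paths

Let `KLHull B` be the smallest class of groups which contains a given class `B` and the
torsion-free groups of the class generated by the groups `GL_m(ℚ)` under the inheritance properties
of the Farrell-Jones conjecture, and which is closed under homomorphisms with free kernel, directed
colimits and actions on trees with sections over the finitely generated subgroups of the edge
stabilizers. Let `G` be a torsion-free group which acts without inversions on a tree with vertex
stabilizers in the class. If, for some `k`, the pairs `(G, H)` are good, where `H` is a finitely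
generated subgroup of the stabilizer of a path of length `k`, then `G` is in the class.

The pairs are good if the groups `H` are virtually solvable of finite rank. They are also good if
every infinite set of vertices contains a finite set `Y` such that all finitely generated subgroups
of `G` which fix the points of `Y` are virtually solvable of finite rank (`vert_tree` in
`Pool/Agent/Lib/MP_98022b_om/Main.lean`).
-/

set_option autoImplicit false

namespace Pool.Agent.Results.MP_98022b_gt.TameTreeActions

open Pool.Agent.OM

/-- Let `B` be a class of groups and let the torsion-free group `G` act without inversions on a
tree with vertex stabilizers in the class `KLHull B`. Let `k` be a natural number such that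
`(G, H)` is a good pair for each finitely generated subgroup `H` of `G` which fixes the ends `u`
and `v` of a path of length `k`. Then `G` is in the class `KLHull B`. -/
theorem result (B : ∀ (G : Type) [Group G], Prop) {G V : Type} [Group G] [MulAction G V]
    {T : SimpleGraph V} (ht : TorsionFree G) (hT : IsTreeAction G V T)
    (hV : ∀ v : V, KLHull B (MulAction.stabilizer G v)) (k : ℕ)
    (hk : ∀ u v, T.dist u v = k → ∀ H : Subgroup G, H.FG → (∀ h ∈ H, h • u = u ∧ h • v = v) →
      Good B ⊤ H) : KLHull B G :=
  seg_tree ht hT hV k hk

end Pool.Agent.Results.MP_98022b_gt.TameTreeActions
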