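import Pool.Agent.Lib.MP_98022b_gl.PGLRing

/-!
# MP_98022b_gt: groups of `2 × 2` matrices over commutative rings

`FJHullA S` is the smallest class of groups which contains a given class `S` and the infinite cyclic
group and is closed under the operations under which the class of groups satisfying the
Farrell-Jones conjecture (with coefficients and finite wreath products) is closed, including
finitely `𝓕`-amenable actions. For the class `S` of the solvable groups and the groups `GL_n(ℚ)`
it contains `GL_2(R)`, `PGL_2(R)` and all their subgroups, for every commutative ring `R`, and more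
generally all groups which have a homomorphism with solvable kernel to `PGL_2(R)`.

The new finitely amenable actions are the actions on finite products of compactified Bruhat-Tits
trees of function fields (`Pool.Agent.GT.finitelyAmenable_of_trees`, `Pool.Agent.GT.mem_of_trees`,
`Pool.Agent.GT.mem_geo`).
-/

set_option autoImplicit false

namespace Pool.Agent.Results.MP_98022b_gt.TwoByTwoMatrices

open Pool.Agent.FJ Pool.Agent.GT

/-- The class of the solvable groups and the groups `GL_n(ℚ)`. -/
inductive SolvOrGLQ : (G : Type) → [Group G] → Prop
  /-- solvable groups -/
  | solvable {G : Type} [Group G] (h : Group.IsSolvable G) : SolvOrGLQ G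
  /-- the groups `GL_n(ℚ)` -/
  | glQ (n : ℕ) : SolvOrGLQ (GL (Fin n) ℚ)

/-- Let `R` be a commutative ring. Every group `G` which has a homomorphism with solvable kernel to
`PGL_2(R) = GL_2(R) / center` is in `FJHullA SolvOrGLQ`. -/
theorem result (R : Type) [CommRing R] (G : Type) [Group G]
    (f : G →* Matrix.ProjGenLinGroup (Fin 2) R) (hf : Group.IsSolvable f.ker) :
    FJHullA SolvOrGLQ G :=
  mem_of_hom (isFJClassA_fjHullA SolvOrGLQ)
    (fun _ _ h => FJHullA.base (SolvOrGLQ.solvable h)) (fun n => FJHullA.base (SolvOrGLQ.glQ n))
    f hf

end Pool.Agent.Results.MP_98022b_gt.TwoByTwoMatrices
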