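import Mathlib
import Pool.Agent.Lib.MP_98022b_UN.E1
import Pool.Agent.Lib.MP_98022b_UN.E4
import Pool.Agent.Lib.MP_98022b_UN.E5
import Pool.Agent.Lib.MP_98022b_UN.Laurent
import Pool.Agent.Lib.MP_98022b_UN.Main
import Pool.Agent.Lib.MP_98022b_UN.RFL
import Pool.Agent.Lib.MP_98022b_UN.Tree

/-!
# Vanishing of Cappell's UNil over locally free edge groups
-/

open MonoidAlgebra
open scoped LaurentPolynomial

namespace Pool.Agent.Results.MP_98022b_gt.UNilFreeEdges

universe u v w

section definitions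
variable {A : Type u} {G : Type v} [CommRing A] [StarRing A] [Group G]

/-- the involution `Σ a_g g ↦ Σ w(g) star(a_g) g⁻¹` of the group ring `A[G]`, `w` the orientation
character -/
noncomputable def bar (w : G →* ℤˣ) (x : MonoidAlgebra A G) : MonoidAlgebra A G :=
  x.coeff.sum fun g a => single g⁻¹ (((w g : ℤˣ) : ℤ) • star a)

/-- the conjugate transpose of a matrix over `A[G]` -/
noncomputable def conj (w : G →* ℤˣ) {I J : Type} (M : Matrix I J (MonoidAlgebra A G)) :
    Matrix J I (MonoidAlgebra A G) := fun j i => bar w (M i j)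

omit [StarRing A] in
/-- all entries of the matrix are supported in the subset `U` of `G` -/
def SuppIn (U : Set G) {I J : Type} (M : Matrix I J (MonoidAlgebra A G)) : Prop :=
  ∀ i j g, (M i j).coeff g ≠ 0 → g ∈ U

/-- An `ε`-quadratic UNil form of rank `n` for the edge `{p, q}` of a tree with an action of `G`,
over the edge group ring `R = A[F]`, `F = G_p ∩ G_q`: representatives `α`, `γ` of quadratic forms
with values in `A[G_q - F]` and `A[G_p - F]`, a matrix `β` with entries in `A[{g | g p = q}]`, such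
that the resulting endomorphism `(x, y) ↦ (x, y) T` is nilpotent. -/
structure QForm (A : Type u) [CommRing A] [StarRing A] {G : Type v} [Group G] {V : Type w}
    [MulAction G V] (χ : G →* ℤˣ) (ε : ℤ) (p q : V) (n : Type) [Fintype n] [DecidableEq n] where
  α : Matrix n n (MonoidAlgebra A G)
  γ : Matrix n n (MonoidAlgebra A G)
  β : Matrix n n (MonoidAlgebra A G)
  suppα : SuppIn {g : G | g • q = q ∧ g • p ≠ p} α
  suppγ : SuppIn {g : G | g • p = p ∧ g • q ≠ q} γ
  suppβ : SuppIn {g : G | g • p = q} β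
  nil : ∃ N : ℕ, (Matrix.fromBlocks β (α + ε • conj χ α) (γ + ε • conj χ γ) (conj χ β)) ^ N = 0

variable {V : Type w} [MulAction G V] {χ : G →* ℤˣ} {ε : ℤ} {p q : V}

/-- A UNil form is metabolic if there is an idempotent matrix `P` over `A[F]`, whose row space `U`
(a direct summand of `R^n`) and its annihilator `U^⊥` (the row space of `1 - P*`) satisfy:
`β` maps `U` to `A[..] U`, the quadratic form `α` vanishes on `U` and the quadratic form `γ`
vanishes on `U^⊥` (quadratic forms are taken modulo the `x - ε x*`). -/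
def QForm.Metabolic {n : Type} [Fintype n] [DecidableEq n] (x : QForm A χ ε p q n) : Prop :=
  ∃ P : Matrix n n (MonoidAlgebra A G), SuppIn {g : G | g • p = p ∧ g • q = q} P ∧ P * P = P ∧
    P * x.β * (1 - P) = 0 ∧
    (∃ y : Matrix n n (MonoidAlgebra A G), SuppIn {g : G | g • q = q ∧ g • p ≠ p} y ∧
      P * x.α * conj χ P = y - ε • conj χ y) ∧
    (∃ y : Matrix n n (MonoidAlgebra A G), SuppIn {g : G | g • p = p ∧ g • q ≠ q} y ∧
      conj χ (1 - P) * x.γ * (1 - P) = y - ε • conj χ y)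

/-- `z` is the orthogonal sum of the UNil forms `x` and `y` -/
def QForm.IsSum {n m : Type} [Fintype n] [DecidableEq n] [Fintype m] [DecidableEq m]
    (z : QForm A χ ε p q (n ⊕ m)) (x : QForm A χ ε p q n) (y : QForm A χ ε p q m) : Prop :=
  z.α = Matrix.fromBlocks x.α 0 0 y.α ∧ z.γ = Matrix.fromBlocks x.γ 0 0 y.γ ∧
    z.β = Matrix.fromBlocks x.β 0 0 y.β

end definitions

/-- `A` has the vanishing property: let `G` act on a tree, let `{p, q}` be an edge which is not
inverted, such that the vertex groups `G_p` and `G_q` have no elements of order two and all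
finitely generated subgroups of the edge group `G_p ∩ G_q` are free.  Then every `ε`-quadratic
UNil form of this edge over `A[G_p ∩ G_q]` becomes metabolic after adding a metabolic form. -/
def UNilVanishes (A : Type u) [CommRing A] [StarRing A] : Prop :=
  ∀ (G : Type v) [Group G] (V : Type w) [MulAction G V] (Γ : SimpleGraph V), Γ.IsTree →
    (∀ (g : G) (x y : V), Γ.Adj x y → Γ.Adj (g • x) (g • y)) →
    ∀ p q : V, Γ.Adj p q → (∀ g : G, ¬ (g • p = q ∧ g • q = p)) →
    (∀ g : G, g • p = p → g * g = 1 → g = 1) → (∀ g : G, g • q = q → g * g = 1 → g = 1) →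
    (∀ H : Subgroup G, H ≤ MulAction.stabilizer G p ⊓ MulAction.stabilizer G q → H.FG →
      IsFreeGroup H) →
    ∀ (χ : G →* ℤˣ) (ε : ℤ), (ε = 1 ∨ ε = -1) → ∀ (n : Type) [Fintype n] [DecidableEq n]
      (x : QForm A χ ε p q n),
      ∃ (m : Type) (_ : Fintype m) (_ : DecidableEq m) (y : QForm A χ ε p q m)
        (z : QForm A χ ε p q (n ⊕ m)), y.Metabolic ∧ z.IsSum x y ∧ z.Metabolic

/-- the involution `z ↦ z⁻¹` of the ring of Laurent polynomials with integer coefficients -/
@[reducible] noncomputable def laurentStar : StarRing ℤ[T;T⁻¹] where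
  star x := LaurentPolynomial.invert x
  star_involutive := LaurentPolynomial.involutive_invert
  star_mul x y := by
    change LaurentPolynomial.invert (x * y) = _
    rw [map_mul, mul_comm]
  star_add x y := map_add _ _ _

section proof
open Pool.Agent.Lib.MP_98022b_UN
variable {A : Type u} {G : Type v} [CommRing A] [IsDomain A] [StarRing A] [Group G]
  {V : Type w} [MulAction G V] {χ : G →* ℤˣ} {ε : ℤ} {p q : V}

theorem conj_eq_adj (χ : G →* ℤˣ) {I J : Type} (M : Matrix I J (MonoidAlgebra A G)) :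
    conj χ M = adj (barStr χ) M := rfl

theorem supp_onT {m : Type} [Fintype m] [DecidableEq m] {σ τ : Bool} (E : EdgeSys G)
    {P Q M : Matrix m m (MonoidAlgebra A G)} (hP : OnF E.F P) (hQ : OnF E.F Q)
    (hM : SuppIn (E.S σ τ) M) : SuppIn (E.S σ τ) (P * M * Q) := by
  have h1 : OnT E (fun _ : m => σ) (fun _ : m => σ) 0 P := hP.onT (by simp)
  have h2 : OnT E (fun _ : m => τ) (fun _ : m => τ) 0 Q := hQ.onT (by simp)
  have h3 : OnT E (fun _ : m => σ) (fun _ : m => τ) 1 M := fun i j g hg =>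
    (P_one E).2 (hM i j g hg)
  have h4 := (h1.mul0 h3).mul h2
  intro i j g hg
  exact (P_one E).1 (h4 i j g hg)

theorem supp_blocks {U : Set G} {m k : Type} {M : Matrix m m (MonoidAlgebra A G)}
    {N : Matrix k k (MonoidAlgebra A G)} (hM : SuppIn U M) (hN : SuppIn U N) :
    SuppIn U (Matrix.fromBlocks M 0 0 N) := by
  intro i j g hg
  rcases i with i | i <;> rcases j with j | j
  · exact hM i j g hg
  · exact absurd rfl hg
  · exact absurd rfl hg
  · exact hN i j g hg

theorem supp_sym {m : Type} {σ : Bool} (E : EdgeSys G) (χ : G →* ℤˣ) (ε : ℤ)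
    {M : Matrix m m (MonoidAlgebra A G)} (hM : SuppIn (E.S σ (!σ)) M) :
    SuppIn (E.S σ (!σ)) (M + ε • conj χ M) := by
  have h1 : OnT E (fun _ : m => σ) (fun _ : m => !σ) 1 M := fun i j g hg =>
    (P_one E).2 (hM i j g hg)
  have h2 : OnT E (fun _ : m => σ) (fun _ : m => !σ) 1 (conj χ M) := by
    have h3 : OnT E (fun _ : m => !(!σ)) (fun _ : m => !σ) 1 M := by simpa using h1
    have := OnT.adj' (E := E) (s := fun _ : m => !σ) (t := fun _ : m => σ) (barStr χ) h3
    exact this
  have h4 := h1.add (h2.zsmul ε)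
  intro i j g hg
  exact (P_one E).1 (h4 i j g hg)

theorem hfree1 (h2 : ∀ g : G, g • q = q → g * g = 1 → g = 1) :
    ∀ g ∈ {g : G | g • q = q ∧ g • p ≠ p},
    g⁻¹ ∈ {g : G | g • q = q ∧ g • p ≠ p} ∧ g⁻¹ ≠ g := by
  intro g hg
  refine ⟨(treeSys p q).inv' (σ := false) (ρ := true) hg, fun h => hg.2 ?_⟩
  have : g = 1 := h2 g hg.1 (by nth_rw 1 [← h]; simp)
  simp [this]

theorem hfree2 (h2 : ∀ g : G, g • p = p → g * g = 1 → g = 1) :
    ∀ g ∈ {g : G | g • p = p ∧ g • q ≠ q},
    g⁻¹ ∈ {g : G | g • p = p ∧ g • q ≠ q} ∧ g⁻¹ ≠ g := by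
  intro g hg
  refine ⟨(treeSys p q).inv' (σ := true) (ρ := false) hg, fun h => hg.2 ?_⟩
  have : g = 1 := h2 g hg.1 (by nth_rw 1 [← h]; simp)
  simp [this]

/-- symmetric metabolic gives quadratic metabolic -/
theorem metabolic_of_smet (h2p : ∀ g : G, g • p = p → g * g = 1 → g = 1)
    (h2q : ∀ g : G, g • q = q → g * g = 1 → g = 1) (hε : ε = 1 ∨ ε = -1) {m : Type}
    [Fintype m] [DecidableEq m] (y : QForm A χ ε p q m)
    (h : SMet (treeSys p q) (barStr χ) y.β (y.α + ε • adj (barStr χ) y.α)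
      (y.γ + ε • adj (barStr χ) y.γ)) : y.Metabolic := by
  obtain ⟨P, hP, hPP, hb, ha, hc⟩ := h
  have hε' : -ε = 1 ∨ -ε = -1 := by omega
  have hεε : ε * ε = 1 := by rcases hε with h | h <;> simp [h]
  have hPa : OnF (treeSys (G := G) p q).F (adj (barStr χ) P) := hP.adj _
  have h1P : OnF (treeSys (G := G) p q).F (1 - P) := (OnF.one _).sub hP
  have h1Pa : OnF (treeSys (G := G) p q).F (adj (barStr χ) (1 - P)) := h1P.adj _
  refine ⟨P, ?_, hPP, hb, ?_, ?_⟩
  · intro i j g hg
    have := Subgroup.mem_inf.1 (hP i j g hg)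
    exact ⟨this.1, this.2⟩
  · have hz : adj (barStr χ) (P * y.α * adj (barStr χ) P) =
        (-ε) • (P * y.α * adj (barStr χ) P) := by
      rw [adj_mul, adj_mul, adj_adj]
      rw [Matrix.mul_add, Matrix.add_mul, Matrix.mul_smul, Matrix.smul_mul] at ha
      have h5 := congrArg (fun X => ε • X) ha
      simp only [smul_add, smul_smul, hεε, one_smul, smul_zero] at h5
      rw [neg_smul, ← Matrix.mul_assoc]
      exact eq_neg_of_add_eq_zero_right h5
    obtain ⟨x, hx, hx'⟩ := exists_half hε' (hfree1 h2q)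
      (supp_onT (σ := false) (τ := true) (treeSys p q) hP hPa y.suppα) hz
    exact ⟨x, hx, by rw [conj_eq_adj, hx', neg_smul, ← sub_eq_add_neg]; rfl⟩
  · have hz : adj (barStr χ) (adj (barStr χ) (1 - P) * y.γ * (1 - P)) =
        (-ε) • (adj (barStr χ) (1 - P) * y.γ * (1 - P)) := by
      rw [adj_mul, adj_mul, adj_adj]
      rw [Matrix.mul_add, Matrix.add_mul, Matrix.mul_smul, Matrix.smul_mul] at hc
      have h5 := congrArg (fun X => ε • X) hc
      simp only [smul_add, smul_smul, hεε, one_smul, smul_zero] at h5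
      rw [neg_smul, ← Matrix.mul_assoc]
      exact eq_neg_of_add_eq_zero_right h5
    obtain ⟨x, hx, hx'⟩ := exists_half hε' (hfree2 h2p)
      (supp_onT (σ := true) (τ := false) (treeSys p q) h1Pa h1P y.suppγ) hz
    exact ⟨x, hx, by rw [conj_eq_adj, hx', neg_smul, ← sub_eq_add_neg]; rfl⟩

end proof

theorem main {A : Type u} [CommRing A] [IsDomain A] [IsNoetherianRing A]
    [UniqueFactorizationMonoid A] [StarRing A]
    (hA : ∀ (k l : ℕ) (f : (Fin k → A) →ₗ[A] (Fin l → A)),
      Module.Projective A (LinearMap.ker f))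
    {G : Type v} [Group G] {V : Type w} [MulAction G V] {Γ : SimpleGraph V} (hΓ : Γ.IsTree)
    (hadj : ∀ (g : G) (x y : V), Γ.Adj x y → Γ.Adj (g • x) (g • y)) {p q : V}
    (hpq : Γ.Adj p q) (hinv : ∀ g : G, ¬ (g • p = q ∧ g • q = p))
    (h2p : ∀ g : G, g • p = p → g * g = 1 → g = 1)
    (h2q : ∀ g : G, g • q = q → g * g = 1 → g = 1)
    (hF : ∀ H : Subgroup G, H ≤ MulAction.stabilizer G p ⊓ MulAction.stabilizer G q → H.FG →
      IsFreeGroup H)
    (χ : G →* ℤˣ) {ε : ℤ} (hε : ε = 1 ∨ ε = -1) {n : Type} [Fintype n] [DecidableEq n]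
    (x : QForm A χ ε p q n) :
    ∃ (m : Type) (_ : Fintype m) (_ : DecidableEq m) (y : QForm A χ ε p q m)
      (z : QForm A χ ε p q (n ⊕ m)), y.Metabolic ∧ z.IsSum x y ∧ z.Metabolic := by
  classical
  have hεε : ε * ε = 1 := by rcases hε with h | h <;> simp [h]
  have hRF : Pool.Agent.Lib.MP_98022b_UN.RF A
      (Pool.Agent.Lib.MP_98022b_UN.treeSys (G := G) p q).F :=
    Pool.Agent.Lib.MP_98022b_UN.rf_free hA
      (MulAction.stabilizer G p ⊓ MulAction.stabilizer G q : Subgroup G) hF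
  have hGeo := Pool.Agent.Lib.MP_98022b_UN.treeSys_geo hΓ hadj hpq hinv
  have hsymm : ∀ {k : Type} (M : Matrix k k (MonoidAlgebra A G)),
      Pool.Agent.Lib.MP_98022b_UN.adj (Pool.Agent.Lib.MP_98022b_UN.barStr χ)
        (M + ε • Pool.Agent.Lib.MP_98022b_UN.adj (Pool.Agent.Lib.MP_98022b_UN.barStr χ) M) =
        ε • (M + ε • Pool.Agent.Lib.MP_98022b_UN.adj
          (Pool.Agent.Lib.MP_98022b_UN.barStr χ) M) := by
    intro k M
    rw [Pool.Agent.Lib.MP_98022b_UN.adj_add, Pool.Agent.Lib.MP_98022b_UN.adj_zsmul,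
      Pool.Agent.Lib.MP_98022b_UN.adj_adj, smul_add, smul_smul, hεε, one_smul, add_comm]
  have hx : Pool.Agent.Lib.MP_98022b_UN.SForm (Pool.Agent.Lib.MP_98022b_UN.treeSys (G := G) p q)
      (Pool.Agent.Lib.MP_98022b_UN.barStr χ) ε x.β (x.α + ε • conj χ x.α)
      (x.γ + ε • conj χ x.γ) := by
    refine ⟨x.suppβ, ?_, ?_, hsymm _, hsymm _, x.nil⟩
    · exact supp_sym (σ := false) _ χ ε x.suppα
    · exact supp_sym (σ := true) _ χ ε x.suppγ
  obtain ⟨m, _, _, b', a', c', hy, hmy, hmz⟩ :=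
    Pool.Agent.Lib.MP_98022b_UN.expl_of_smetab hε
      (Pool.Agent.Lib.MP_98022b_UN.smetab_of_tf hRF hGeo hε
        (Pool.Agent.Lib.MP_98022b_UN.tf_of_sform hε hx))
  have hz := Pool.Agent.Lib.MP_98022b_UN.sform_sum hx hy
  obtain ⟨α', hα', hα''⟩ := Pool.Agent.Lib.MP_98022b_UN.exists_half hε (hfree1 h2q) hy.ha hy.ea
  obtain ⟨γ', hγ', hγ''⟩ := Pool.Agent.Lib.MP_98022b_UN.exists_half hε (hfree2 h2p) hy.hc hy.ec
  have hsumα : Matrix.fromBlocks x.α 0 0 α' + ε • conj χ (Matrix.fromBlocks x.α 0 0 α') =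
      Matrix.fromBlocks (x.α + ε • conj χ x.α) 0 0 a' := by
    rw [conj_eq_adj, Pool.Agent.Lib.MP_98022b_UN.adj_fromBlocks,
      Pool.Agent.Lib.MP_98022b_UN.adj_zero, Pool.Agent.Lib.MP_98022b_UN.adj_zero,
      Matrix.fromBlocks_smul, Matrix.fromBlocks_add, hα'']
    simp only [smul_zero, add_zero]
    rfl
  have hsumγ : Matrix.fromBlocks x.γ 0 0 γ' + ε • conj χ (Matrix.fromBlocks x.γ 0 0 γ') =
      Matrix.fromBlocks (x.γ + ε • conj χ x.γ) 0 0 c' := by
    rw [conj_eq_adj, Pool.Agent.Lib.MP_98022b_UN.adj_fromBlocks,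
      Pool.Agent.Lib.MP_98022b_UN.adj_zero, Pool.Agent.Lib.MP_98022b_UN.adj_zero,
      Matrix.fromBlocks_smul, Matrix.fromBlocks_add, hγ'']
    simp only [smul_zero, add_zero]
    rfl
  let y : QForm A χ ε p q m :=
    { α := α', γ := γ', β := b', suppα := hα', suppγ := hγ', suppβ := hy.hb
      nil := by
        have h := hy.nil
        rw [hα'', hγ''] at h
        exact h }
  let z : QForm A χ ε p q (n ⊕ m) :=
    { α := Matrix.fromBlocks x.α 0 0 α'
      γ := Matrix.fromBlocks x.γ 0 0 γ'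
      β := Matrix.fromBlocks x.β 0 0 b'
      suppα := supp_blocks x.suppα hα'
      suppγ := supp_blocks x.suppγ hγ'
      suppβ := hz.hb
      nil := by
        have h := hz.nil
        rw [hsumα, hsumγ]
        exact h }
  refine ⟨m, inferInstance, inferInstance, y, z, ?_, ⟨rfl, rfl, rfl⟩, ?_⟩
  · apply metabolic_of_smet h2p h2q hε
    rw [hα'', hγ''] at hmy
    exact hmy
  · apply metabolic_of_smet h2p h2q hε
    have h := hmz
    rw [← hsumα, ← hsumγ] at h
    exact h

/-- **Vanishing of UNil over locally free edge groups.**  The vanishing property holds for every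
commutative Noetherian factorial domain `A` with involution such that kernels of maps between
finitely generated free modules are projective; in particular for `ℤ` with the trivial involution
and for `ℤ[T;T⁻¹]` with the involution `T ↦ T⁻¹`. -/
theorem result :
    (∀ (A : Type u) [CommRing A] [IsDomain A] [IsNoetherianRing A] [UniqueFactorizationMonoid A]
      [StarRing A], (∀ (k l : ℕ) (f : (Fin k → A) →ₗ[A] (Fin l → A)),
        Module.Projective A (LinearMap.ker f)) → UNilVanishes.{u, v, w} A) ∧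
    @UNilVanishes.{0, v, w} ℤ _ starRingOfComm ∧
    @UNilVanishes.{0, v, w} ℤ[T;T⁻¹] _ laurentStar := by
  refine ⟨?_, ?_, ?_⟩
  · intro A _ _ _ _ _ hA G _ V _ Γ hΓ hadj p q hpq hinv h2p h2q hF χ ε hε n _ _ x
    exact main hA hΓ hadj hpq hinv h2p h2q hF χ hε x
  · intro G _ V _ Γ hΓ hadj p q hpq hinv h2p h2q hF χ ε hε n _ _ x
    let _ : StarRing ℤ := starRingOfComm
    exact main (fun _ _ _ => inferInstance) hΓ hadj hpq hinv h2p h2q hF χ hε x
  · intro G _ V _ Γ hΓ hadj p q hpq hinv h2p h2q hF χ ε hε n _ _ x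
    let _ : StarRing ℤ[T;T⁻¹] := laurentStar
    let _ : IsNoetherianRing ℤ[T;T⁻¹] := Pool.Agent.UNh12.laurent_noetherian ℤ
    let _ : UniqueFactorizationMonoid ℤ[T;T⁻¹] := Pool.Agent.UNh12.laurent_ufd ℤ
    exact main (fun k l f => Pool.Agent.UNh12.ker_projective_laurent k l f) hΓ hadj hpq hinv h2p
      h2q hF χ hε x

end Pool.Agent.Results.MP_98022b_gt.UNilFreeEdges
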