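import Mathlib
import Pool.Agent.Lib.MIX.LineA

/-!
# Cappell's UNil sees only the reversible lines

Actions on trees such that every reversible line has a central segment whose stabiliser locally is
torsion-free and virtually acts on a locally finite tree with virtually poly-`ℤ` stabilisers
-/

open scoped LaurentPolynomial

namespace Pool.Agent.Results.MP_98022b_gt.UNilReversibleLines

open Pool.Agent.MIX

universe u v w

/-- **UNil forms of an edge are hyperbolic over `A[G]` if every reversible line of translates of the
edge has a central segment such that the finitely generated subgroups of its stabiliser are
torsion-free and have a subgroup of finite index which acts on a locally finite tree with virtually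
poly-`ℤ` vertex stabilisers of bounded length.**  Here `A` is a commutative ring with involution,
which must be good if there are reversible lines; the rings `ℤ` and `ℤ[T;T⁻¹]` are good. -/
theorem result :
    (∀ (A : Type u) [CommRing A] [StarRing A], UNilVanishesA.{u, v, w} A) ∧
    GoodRing ℤ ∧ GoodRing ℤ[T;T⁻¹] :=
  ⟨fun A _ _ => unilA A, goodRing_int, goodRing_laurent⟩

end Pool.Agent.Results.MP_98022b_gt.UNilReversibleLines
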